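import Mathlib

/-!
# Covering properties: definitions, closed subspaces, and a sufficient condition for their failure
-/

set_option autoImplicit false

namespace Pool.Agent.Helper37.BX

open Set Topology

universe a b c

/-- Every countable open cover has an open refinement that is interior-preserving: the
intersection of every subfamily is open. -/
def CountablyOrthocompact (X : Type a) [TopologicalSpace X] : Prop :=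
  ∀ 𝒰 : Set (Set X), 𝒰.Countable → (∀ U ∈ 𝒰, IsOpen U) → ⋃₀ 𝒰 = univ →
    ∃ 𝒱 : Set (Set X), (∀ V ∈ 𝒱, IsOpen V) ∧ ⋃₀ 𝒱 = univ ∧ (∀ V ∈ 𝒱, ∃ U ∈ 𝒰, V ⊆ U) ∧
      ∀ 𝒲, 𝒲 ⊆ 𝒱 → IsOpen (⋂₀ 𝒲)

/-- Every countable open cover has a point-finite open refinement. -/
def CountablyMetacompact (X : Type a) [TopologicalSpace X] : Prop :=
  ∀ 𝒰 : Set (Set X), 𝒰.Countable → (∀ U ∈ 𝒰, IsOpen U) → ⋃₀ 𝒰 = univ →
    ∃ 𝒱 : Set (Set X), (∀ V ∈ 𝒱, IsOpen V) ∧ ⋃₀ 𝒱 = univ ∧ (∀ V ∈ 𝒱, ∃ U ∈ 𝒰, V ⊆ U) ∧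
      ∀ x, {V | V ∈ 𝒱 ∧ x ∈ V}.Finite

/-- A family of sets is discrete if every point has an open neighbourhood that meets at most one
member of the family. -/
def DiscreteFamily {X : Type a} [TopologicalSpace X] (𝒟 : Set (Set X)) : Prop :=
  ∀ x, ∃ U, IsOpen U ∧ x ∈ U ∧
    ∀ D ∈ 𝒟, ∀ D' ∈ 𝒟, (D ∩ U).Nonempty → (D' ∩ U).Nonempty → D = D'

/-- Every open cover has a closed refinement that is a countable union of discrete families. -/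
def Subparacompact (X : Type a) [TopologicalSpace X] : Prop :=
  ∀ 𝒰 : Set (Set X), (∀ U ∈ 𝒰, IsOpen U) → ⋃₀ 𝒰 = univ →
    ∃ 𝒟 : ℕ → Set (Set X), (∀ n, ∀ D ∈ 𝒟 n, IsClosed D) ∧ ⋃ n, ⋃₀ 𝒟 n = univ ∧
      (∀ n, ∀ D ∈ 𝒟 n, ∃ U ∈ 𝒰, D ⊆ U) ∧ ∀ n, DiscreteFamily (𝒟 n)

/-! ### Closed subspaces -/

section closed
variable {X : Type a} {Y : Type b} [TopologicalSpace X] [TopologicalSpace Y] {f : X → Y}

/-- An open cover of a closed subspace comes from an open cover of the space. -/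
theorem exists_cover (hf : IsClosedEmbedding f) {𝒰 : Set (Set X)} (hU : ∀ U ∈ 𝒰, IsOpen U)
    (hcov : ⋃₀ 𝒰 = univ) : ∃ 𝒪 : Set (Set Y), (𝒰.Countable → 𝒪.Countable) ∧
      (∀ O ∈ 𝒪, IsOpen O) ∧ ⋃₀ 𝒪 = univ ∧
      ∀ O ∈ 𝒪, (f ⁻¹' O).Nonempty → ∃ U ∈ 𝒰, f ⁻¹' O ⊆ U := by
  choose g hg1 hg2 using fun U : 𝒰 => hf.isInducing.isOpen_iff.1 (hU U.1 U.2)
  refine ⟨range g ∪ {(range f)ᶜ}, fun hc => ?_, ?_, ?_, ?_⟩
  · have := hc.to_subtype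
    exact (countable_range g).union (countable_singleton _)
  · rintro O (⟨U, rfl⟩ | hO)
    · exact hg1 U
    · rw [hO]; exact hf.isClosed_range.isOpen_compl
  · apply eq_univ_of_forall
    intro y
    by_cases hy : y ∈ range f
    · obtain ⟨x, rfl⟩ := hy
      have hx : x ∈ ⋃₀ 𝒰 := by rw [hcov]; exact mem_univ _
      obtain ⟨U, hUm, hxU⟩ := hx
      refine ⟨g ⟨U, hUm⟩, Or.inl ⟨_, rfl⟩, ?_⟩
      have : x ∈ f ⁻¹' g ⟨U, hUm⟩ := by rw [hg2]; exact hxU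
      exact this
    · exact ⟨(range f)ᶜ, Or.inr rfl, hy⟩
  · rintro O (⟨U, rfl⟩ | hO) hne
    · exact ⟨U.1, U.2, (hg2 U).le⟩
    · rw [hO] at hne
      obtain ⟨x, hx⟩ := hne
      exact absurd (mem_range_self x) hx

/-- The traces of a cover. -/
def tr (f : X → Y) (𝒱 : Set (Set Y)) : Set (Set X) := {S | ∃ V ∈ 𝒱, S = f ⁻¹' V ∧ S.Nonempty}

theorem tr_cover {𝒱 : Set (Set Y)} (h : ⋃₀ 𝒱 = univ) : ⋃₀ tr f 𝒱 = univ := by
  apply eq_univ_of_forall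
  intro x
  have hx : f x ∈ ⋃₀ 𝒱 := by rw [h]; exact mem_univ _
  obtain ⟨V, hV, hxV⟩ := hx
  exact ⟨f ⁻¹' V, ⟨V, hV, rfl, ⟨x, hxV⟩⟩, hxV⟩

theorem tr_refine {𝒱 𝒪 : Set (Set Y)} {𝒰 : Set (Set X)}
    (h : ∀ O ∈ 𝒪, (f ⁻¹' O).Nonempty → ∃ U ∈ 𝒰, f ⁻¹' O ⊆ U) (h' : ∀ V ∈ 𝒱, ∃ O ∈ 𝒪, V ⊆ O) :
    ∀ S ∈ tr f 𝒱, ∃ U ∈ 𝒰, S ⊆ U := by
  rintro S ⟨V, hV, rfl, hne⟩
  obtain ⟨O, hO, hVO⟩ := h' V hV
  obtain ⟨U, hU, hOU⟩ := h O hO (hne.mono (preimage_mono hVO))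
  exact ⟨U, hU, (preimage_mono hVO).trans hOU⟩

/-- The property passes to closed subspaces. -/
theorem CountablyOrthocompact.of_closedEmbedding (hY : CountablyOrthocompact Y)
    (hf : IsClosedEmbedding f) : CountablyOrthocompact X := by
  intro 𝒰 hc hU hcov
  obtain ⟨𝒪, h1, h2, h3, h4⟩ := exists_cover hf hU hcov
  obtain ⟨𝒱, h5, h6, h7, h8⟩ := hY 𝒪 (h1 hc) h2 h3
  refine ⟨tr f 𝒱, ?_, tr_cover h6, tr_refine h4 h7, ?_⟩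
  · rintro S ⟨V, hV, rfl, _⟩
    exact (h5 V hV).preimage hf.continuous
  · intro 𝒲 hW
    have e : ⋂₀ 𝒲 = f ⁻¹' ⋂₀ {V | V ∈ 𝒱 ∧ f ⁻¹' V ∈ 𝒲} := by
      ext x
      constructor
      · rintro hx V ⟨_, hV⟩
        exact hx _ hV
      · intro hx S hS
        obtain ⟨V, hV, rfl, _⟩ := hW hS
        exact hx V ⟨hV, hS⟩
    rw [e]
    exact (h8 _ fun V hV => hV.1).preimage hf.continuous

/-- The property passes to closed subspaces. -/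
theorem CountablyMetacompact.of_closedEmbedding (hY : CountablyMetacompact Y)
    (hf : IsClosedEmbedding f) : CountablyMetacompact X := by
  intro 𝒰 hc hU hcov
  obtain ⟨𝒪, h1, h2, h3, h4⟩ := exists_cover hf hU hcov
  obtain ⟨𝒱, h5, h6, h7, h8⟩ := hY 𝒪 (h1 hc) h2 h3
  refine ⟨tr f 𝒱, ?_, tr_cover h6, tr_refine h4 h7, ?_⟩
  · rintro S ⟨V, hV, rfl, _⟩
    exact (h5 V hV).preimage hf.continuous
  · intro x
    refine ((h8 (f x)).image fun V => f ⁻¹' V).subset ?_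
    rintro S ⟨⟨V, hV, rfl, _⟩, hx⟩
    exact ⟨V, ⟨hV, hx⟩, rfl⟩

/-- The property passes to closed subspaces. -/
theorem Subparacompact.of_closedEmbedding (hY : Subparacompact Y)
    (hf : IsClosedEmbedding f) : Subparacompact X := by
  intro 𝒰 hU hcov
  obtain ⟨𝒪, _, h2, h3, h4⟩ := exists_cover hf hU hcov
  obtain ⟨𝒟, h5, h6, h7, h8⟩ := hY 𝒪 h2 h3
  refine ⟨fun n => tr f (𝒟 n), ?_, ?_, fun n => tr_refine h4 (h7 n), ?_⟩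
  · rintro n S ⟨V, hV, rfl, _⟩
    exact (h5 n V hV).preimage hf.continuous
  · apply eq_univ_of_forall
    intro x
    have hx : f x ∈ ⋃ n, ⋃₀ 𝒟 n := by rw [h6]; exact mem_univ _
    obtain ⟨n, V, hV, hxV⟩ := mem_iUnion.1 hx
    exact mem_iUnion.2 ⟨n, f ⁻¹' V, ⟨V, hV, rfl, ⟨x, hxV⟩⟩, hxV⟩
  · intro n x
    obtain ⟨U, hUo, hxU, hU'⟩ := h8 n (f x)
    refine ⟨f ⁻¹' U, hUo.preimage hf.continuous, hxU, ?_⟩
    rintro _ ⟨D, hD, rfl, _⟩ _ ⟨D', hD', rfl, _⟩ ⟨z, hz⟩ ⟨z', hz'⟩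
    rw [hU' D hD D' hD' ⟨f z, hz⟩ ⟨f z', hz'⟩]

end closed

/-! ### Families of points with levels -/

section levels
variable {X : Type a} [TopologicalSpace X] {ι : Type b}

theorem isClosed_sUnion {𝒟 : Set (Set X)} (h : DiscreteFamily 𝒟) {𝒟' : Set (Set X)} (hs : 𝒟' ⊆ 𝒟)
    (hc : ∀ D ∈ 𝒟', IsClosed D) : IsClosed (⋃₀ 𝒟') := by
  rw [← isOpen_compl_iff, isOpen_iff_forall_mem_open]
  intro x hx
  obtain ⟨U, hU, hxU, hU'⟩ := h x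
  by_cases hne : ∃ D ∈ 𝒟', (D ∩ U).Nonempty
  · obtain ⟨D, hD, hDU⟩ := hne
    refine ⟨U ∩ Dᶜ, ?_, hU.inter (hc D hD).isOpen_compl, hxU, fun hxD => hx ⟨D, hD, hxD⟩⟩
    rintro z ⟨hzU, hzD⟩ ⟨D', hD', hzD'⟩
    have := hU' D (hs hD) D' (hs hD') hDU ⟨z, hzD', hzU⟩
    rw [this] at hzD
    exact hzD hzD'
  · push Not at hne
    refine ⟨U, ?_, hU, hxU⟩
    rintro z hzU ⟨D', hD', hzD'⟩
    have := hne D' hD'
    have hz : z ∈ D' ∩ U := ⟨hzD', hzU⟩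
    rw [this] at hz
    exact hz

/-- The union of all open sets in which the levels are at most `n`. -/
def GG (F : ι → X) (lv : ι → ℕ) (n : ℕ) : Set X :=
  ⋃₀ {U | IsOpen U ∧ ∀ i, F i ∈ U → lv i ≤ n}

theorem isOpen_GG (F : ι → X) (lv : ι → ℕ) (n : ℕ) : IsOpen (GG F lv n) :=
  isOpen_sUnion fun _ hU => hU.1

theorem lv_le_of_mem {F : ι → X} {lv : ι → ℕ} {n : ℕ} {i : ι} (h : F i ∈ GG F lv n) : lv i ≤ n := by
  obtain ⟨U, hU, hi⟩ := h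
  exact hU.2 i hi

/-- Levels are locally bounded. -/
def LocBdd (F : ι → X) (lv : ι → ℕ) : Prop := ∀ x, ∃ U, IsOpen U ∧ x ∈ U ∧ ∃ L, ∀ i, F i ∈ U → lv i ≤ L

/-- For every open expansion there is a point that is in members of unbounded level. -/
def Unbdd (F : ι → X) (lv : ι → ℕ) : Prop := ∀ O : ι → Set X, (∀ i, IsOpen (O i) ∧ F i ∈ O i) →
  ∃ x, ∀ L, ∃ i, L ≤ lv i ∧ x ∈ O i

theorem GG_cover {F : ι → X} {lv : ι → ℕ} (hA : LocBdd F lv) (x : X) : ∃ n, x ∈ GG F lv n := by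
  obtain ⟨U, hU, hx, L, hL⟩ := hA x
  exact ⟨L, U, ⟨hU, hL⟩, hx⟩

theorem not_countablyMetacompact {F : ι → X} {lv : ι → ℕ} (hA : LocBdd F lv) (hB : Unbdd F lv) :
    ¬ CountablyMetacompact X := by
  intro hM
  obtain ⟨𝒱, h1, h2, h3, h4⟩ := hM (range (GG F lv)) (countable_range _) (by
    rintro _ ⟨n, rfl⟩
    exact isOpen_GG F lv n) (by
    apply eq_univ_of_forall
    intro x
    obtain ⟨n, hn⟩ := GG_cover hA x
    exact ⟨_, ⟨n, rfl⟩, hn⟩)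
  have hex : ∀ i, ∃ V ∈ 𝒱, F i ∈ V := fun i => by
    have : F i ∈ ⋃₀ 𝒱 := by rw [h2]; exact mem_univ _
    exact this
  choose V hV1 hV2 using hex
  have hN : ∀ W : 𝒱, ∃ n, W.1 ⊆ GG F lv n := fun W => by
    obtain ⟨_, ⟨n, rfl⟩, h⟩ := h3 W.1 W.2
    exact ⟨n, h⟩
  choose N hN using hN
  obtain ⟨x, hx⟩ := hB V fun i => ⟨h1 _ (hV1 i), hV2 i⟩
  have hfin : (Set.range fun W : {W // W ∈ 𝒱 ∧ x ∈ W} => N ⟨W.1, W.2.1⟩).Finite := by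
    have : Finite {W // W ∈ 𝒱 ∧ x ∈ W} := (h4 x).to_subtype
    exact Set.finite_range _
  obtain ⟨B, hB'⟩ := hfin.bddAbove
  obtain ⟨i, hi1, hi2⟩ := hx (B + 1)
  have h5 : lv i ≤ N ⟨V i, hV1 i⟩ := lv_le_of_mem (hN ⟨V i, hV1 i⟩ (hV2 i))
  have h6 : N ⟨V i, hV1 i⟩ ≤ B := hB' ⟨⟨V i, hV1 i, hi2⟩, rfl⟩
  omega

theorem not_subparacompact {F : ι → X} {lv : ι → ℕ} (hA : LocBdd F lv) (hB : Unbdd F lv) :
    ¬ Subparacompact X := by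
  intro hM
  obtain ⟨𝒟, h1, h2, h3, h4⟩ := hM (range (GG F lv)) (by
    rintro _ ⟨n, rfl⟩
    exact isOpen_GG F lv n) (by
    apply eq_univ_of_forall
    intro x
    obtain ⟨n, hn⟩ := GG_cover hA x
    exact ⟨_, ⟨n, rfl⟩, hn⟩)
  let C : ℕ → ℕ → Set X := fun k n => ⋃₀ {D | D ∈ 𝒟 k ∧ D ⊆ GG F lv n}
  have hC : ∀ k n, IsClosed (C k n) := fun k n =>
    isClosed_sUnion (h4 k) (fun D hD => hD.1) fun D hD => h1 k D hD.1
  have hCG : ∀ k n, C k n ⊆ GG F lv n := by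
    rintro k n x ⟨D, hD, hx⟩
    exact hD.2 hx
  let K : ℕ → Set X := fun l => ⋃ k ∈ Finset.range l, ⋃ n ∈ Finset.range l, C k n
  have hK : ∀ l, IsClosed (K l) := fun l =>
    isClosed_biUnion_finset fun k _ => isClosed_biUnion_finset fun n _ => hC k n
  have hKm : ∀ l x, x ∈ K l ↔ ∃ k n, k < l ∧ n < l ∧ x ∈ C k n := by
    intro l x
    simp only [K, mem_iUnion, Finset.mem_range, exists_prop]
    constructor
    · rintro ⟨k, hk, n, hn, h⟩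
      exact ⟨k, n, hk, hn, h⟩
    · rintro ⟨k, n, hk, hn, h⟩
      exact ⟨k, hk, n, hn, h⟩
  obtain ⟨x, hx⟩ := hB (fun i => (K (lv i))ᶜ) fun i => ⟨(hK _).isOpen_compl, fun hi => by
    obtain ⟨k, n, _, hn, h⟩ := (hKm _ _).1 hi
    have := lv_le_of_mem (hCG k n h)
    omega⟩
  have hxm : x ∈ ⋃ n, ⋃₀ 𝒟 n := by rw [h2]; exact mem_univ _
  obtain ⟨k, D, hD, hxD⟩ := mem_iUnion.1 hxm
  obtain ⟨_, ⟨n, rfl⟩, hDn⟩ := h3 k D hD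
  obtain ⟨i, hi1, hi2⟩ := hx (k + n + 1)
  exact hi2 ((hKm _ _).2 ⟨k, n, by omega, by omega, D, ⟨hD, hDn⟩, hxD⟩)

theorem isOpen_Ici_nat (n : ℕ) : IsOpen (Ici (n : ℕ∞)) := by
  rcases Nat.eq_zero_or_pos n with h0 | h0
  · rw [h0]; simp
  · obtain ⟨m, hm⟩ := Nat.exists_eq_succ_of_ne_zero h0.ne'
    have : Ici (n : ℕ∞) = Ioi (m : ℕ∞) := by
      ext x
      rw [mem_Ici, mem_Ioi, hm]
      constructor
      · intro h; exact lt_of_lt_of_le (by exact_mod_cast Nat.lt_succ_self m) h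
      · intro h; exact_mod_cast Order.add_one_le_of_lt h
    rw [this]
    exact isOpen_Ioi

theorem exists_nat_mem {O : Set ℕ∞} (hO : IsOpen O) (h : ⊤ ∈ O) : ∃ m : ℕ, (m : ℕ∞) ∈ O := by
  have h2 : O ∈ 𝓝 (⊤ : ℕ∞) := hO.mem_nhds h
  obtain ⟨l, hl, hl'⟩ := nhds_top_basis.mem_iff.1 h2
  obtain ⟨n, rfl⟩ := ENat.ne_top_iff_exists.1 hl.ne
  exact ⟨n + 1, hl' (by
    rw [mem_Ioi]
    exact_mod_cast Nat.lt_succ_self n)⟩

theorem not_countablyOrthocompact {F : ι → X} {lv : ι → ℕ} (hA : LocBdd F lv) (hB : Unbdd F lv) :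
    ¬ CountablyOrthocompact (X × ℕ∞) := by
  intro hM
  obtain ⟨𝒱, h1, h2, h3, h4⟩ := hM
    ((range fun n : ℕ => GG F lv n ×ˢ Ici (n : ℕ∞)) ∪ range fun m : ℕ => (univ : Set X) ×ˢ {(m : ℕ∞)})
    ((countable_range _).union (countable_range _)) (by
    rintro _ (⟨n, rfl⟩ | ⟨m, rfl⟩)
    · exact (isOpen_GG F lv n).prod (isOpen_Ici_nat n)
    · exact isOpen_univ.prod (ENat.isOpen_singleton (ENat.natCast_ne_top m))) (by
    apply eq_univ_of_forall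
    rintro ⟨x, t⟩
    by_cases ht : t = ⊤
    · obtain ⟨n, hn⟩ := GG_cover hA x
      refine ⟨_, Or.inl ⟨n, rfl⟩, hn, ?_⟩
      rw [ht]
      exact mem_Ici.2 le_top
    · obtain ⟨m, rfl⟩ := ENat.ne_top_iff_exists.1 ht
      exact ⟨_, Or.inr ⟨m, rfl⟩, mem_univ _, rfl⟩)
  have hex : ∀ i, ∃ V ∈ 𝒱, (F i, (⊤ : ℕ∞)) ∈ V := fun i => by
    have : (F i, (⊤ : ℕ∞)) ∈ ⋃₀ 𝒱 := by rw [h2]; exact mem_univ _
    exact this
  choose V hV1 hV2 using hex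
  have hV3 : ∀ i (z : X × ℕ∞), z ∈ V i → (lv i : ℕ∞) ≤ z.2 := by
    intro i z hz
    obtain ⟨_, ⟨n, rfl⟩ | ⟨m, rfl⟩, h⟩ := h3 (V i) (hV1 i)
    · have h5 := lv_le_of_mem (h (hV2 i)).1
      have h6 : (n : ℕ∞) ≤ z.2 := (h hz).2
      exact le_trans (by exact_mod_cast h5) h6
    · have h5 : (⊤ : ℕ∞) = (m : ℕ∞) := (h (hV2 i)).2
      exact absurd h5.symm (ENat.natCast_ne_top m)
  obtain ⟨x, hx⟩ := hB (fun i => {z | (z, (⊤ : ℕ∞)) ∈ V i}) fun i =>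
    ⟨(h1 _ (hV1 i)).preimage (by fun_prop), hV2 i⟩
  have h5 := h4 {W | ∃ i, W = V i ∧ (x, (⊤ : ℕ∞)) ∈ V i} (by
    rintro _ ⟨i, rfl, _⟩
    exact hV1 i)
  have h6 : IsOpen {t : ℕ∞ | (x, t) ∈ ⋂₀ {W | ∃ i, W = V i ∧ (x, (⊤ : ℕ∞)) ∈ V i}} :=
    h5.preimage (by fun_prop)
  obtain ⟨m, hm⟩ := exists_nat_mem h6 (by
    rintro _ ⟨i, rfl, hi⟩
    exact hi)
  obtain ⟨i, hi1, hi2⟩ := hx (m + 1)
  have h7 : (x, (m : ℕ∞)) ∈ V i := hm _ ⟨i, rfl, hi2⟩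
  have h8 := hV3 i _ h7
  have h9 : (lv i : ℕ∞) ≤ (m : ℕ∞) := h8
  rw [Nat.cast_le] at h9
  omega

end levels

end Pool.Agent.Helper37.BX
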