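import Mathlib
import Pool.Agent.Helper21.Box.General
import Pool.Agent.Helper9.BX.Closed
import Pool.Agent.Helper37.BX.TopDefs

/-!
# From the combinatorial core to the failure of the covering properties
-/

set_option autoImplicit false

namespace Pool.Agent.Helper37.BX

open Set Topology
open Pool.Agent.Helper21.Box (BoxProd BoxPow pt nb isOpen_nb exists_nb exists_cyl mem_nb_pt pt_surj en_inj
  isOpen_box exists_closedEmbedding exists_enat_closedEmbedding en_some)
open Pool.Agent.Helper12.BX (PF FF lev xv Near Core Ext closed_prod closed_sub)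

universe a b

/-! ### The shift -/

/-- The shift `□^ω(ω+1) × (ω+1) ≃ □^ω(ω+1)`. -/
def shift : BoxPow × ℕ∞ ≃ₜ BoxPow where
  toFun z := fun n => match n with
    | 0 => z.2
    | n + 1 => z.1 n
  invFun y := (fun n => y (n + 1), y 0)
  left_inv _ := rfl
  right_inv y := by
    funext n
    cases n <;> rfl
  continuous_toFun := by
    refine continuous_generateFrom_iff.2 ?_
    rintro _ ⟨U, hU, rfl⟩
    have : IsOpen ({y : BoxPow | ∀ n, y n ∈ U (n + 1)} ×ˢ U 0) :=
      (isOpen_box fun n => hU (n + 1)).prod (hU 0)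
    convert this using 1
    ext z
    constructor
    · intro h
      exact ⟨fun n => h (n + 1), h 0⟩
    · rintro ⟨h1, h2⟩ n
      cases n with
      | zero => exact h2
      | succ n => exact h1 n
  continuous_invFun := by
    refine Continuous.prodMk ?_ ?_
    · refine continuous_generateFrom_iff.2 ?_
      rintro _ ⟨U, hU, rfl⟩
      have : IsOpen {y : BoxPow | ∀ n, y n ∈ (match n with
          | 0 => univ
          | n + 1 => U n : Set ℕ∞)} := by
        refine isOpen_box fun n => ?_
        cases n with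
        | zero => exact isOpen_univ
        | succ n => exact hU n
      convert this using 1
      ext y
      constructor
      · intro h n
        cases n with
        | zero => exact mem_univ _
        | succ n => exact h n
      · intro h n
        exact h (n + 1)
    · rw [continuous_def]
      intro O hO
      have : IsOpen {y : BoxPow | ∀ n, y n ∈ (match n with
          | 0 => O
          | _ + 1 => univ : Set ℕ∞)} := by
        refine isOpen_box fun n => ?_
        cases n with
        | zero => exact hO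
        | succ n => exact isOpen_univ
      convert this using 1
      ext y
      constructor
      · intro h n
        cases n with
        | zero => exact h
        | succ n => exact mem_univ _
      · intro h
        exact h 0

theorem shift_tail (z : BoxPow × ℕ∞) (n : ℕ) : shift z (n + 1) = z.1 n := rfl

theorem shift_symm_fst (y : BoxPow) : (shift.symm y).1 = fun n => y (n + 1) := rfl

/-! ### The product -/

/-- The index set of the family. -/
abbrev Idx : Type := {q : PF × ℕ // FF q.1 q.2}

/-- The family in the product. -/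
noncomputable def FP (q : Idx) : (ℕ → ℕ) × BoxPow := (xv q.1.1 q.1.2, pt q.1.1)

/-- The levels. -/
noncomputable def LV (q : Idx) : ℕ := lev q.1.1 q.1.2

theorem locBdd_prod : LocBdd FP LV := by
  rintro ⟨x, y'⟩
  obtain ⟨v, rfl⟩ := pt_surj y'
  obtain ⟨k, g, L, h⟩ := closed_prod x v
  refine ⟨{a : ℕ → ℕ | ∀ t, t < k → a t = x t} ×ˢ nb v g, ?_, ?_, L, ?_⟩
  · refine IsOpen.prod ?_ (isOpen_nb v g)
    have : {a : ℕ → ℕ | ∀ t, t < k → a t = x t} = ⋂ t ∈ Finset.range k, {a | a t = x t} := by
      ext a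
      simp
    rw [this]
    refine isOpen_biInter_finset fun n _ => ?_
    have : Continuous fun a : ℕ → ℕ => a n := continuous_apply n
    exact (isOpen_discrete ({x n} : Set ℕ)).preimage this
  · refine ⟨fun _ _ => rfl, ?_⟩
    rw [mem_nb_pt]
    exact ⟨fun d v h => h, fun d v h h' => by rw [h] at h'; cases h'⟩
  · rintro ⟨⟨y, n⟩, hy⟩ ⟨h1, h2⟩
    exact h y n hy h1 (mem_nb_pt.1 h2)

theorem unbdd_prod (hcore : Core) : Unbdd FP LV := by
  intro O hO
  have hex : ∀ u : PF, ∃ (k : ℕ) (g : ℕ → ℕ), ∀ (n : ℕ) (hu : FF u n) (x : ℕ → ℕ) (w : PF),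
      (∀ t, t < k → x t = xv u n t) → Near u g w → (x, pt w) ∈ O ⟨(u, n), hu⟩ := by
    intro u
    by_cases hu : ∃ n, FF u n
    · obtain ⟨n, hu⟩ := hu
      obtain ⟨O1, O2, h1, h2, h3, h4, h5⟩ := isOpen_prod_iff.1 (hO ⟨(u, n), hu⟩).1 _ _ (hO ⟨(u, n), hu⟩).2
      obtain ⟨k, hk⟩ := exists_cyl h1 h3
      obtain ⟨g, hg⟩ := exists_nb h2 h4
      refine ⟨k, g, fun m hm x w hx hw => ?_⟩
      obtain rfl := hu.unique hm
      exact h5 ⟨hk x hx, hg (mem_nb_pt.2 hw)⟩
    · exact ⟨0, fun _ => 0, fun n h => absurd ⟨n, h⟩ hu⟩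
  choose k g hkg using hex
  obtain ⟨u, n, x, w, h⟩ := hcore k g
  refine ⟨(x, pt w), fun L => ⟨⟨(u L, n L), (h L).1⟩, (h L).2.2.2, ?_⟩⟩
  exact hkg (u L) (n L) (h L).1 x w (h L).2.1 (h L).2.2.1

theorem not_cm_prod (hcore : Core) : ¬ CountablyMetacompact ((ℕ → ℕ) × BoxPow) :=
  not_countablyMetacompact locBdd_prod (unbdd_prod hcore)

theorem not_sp_prod (hcore : Core) : ¬ Subparacompact ((ℕ → ℕ) × BoxPow) :=
  not_subparacompact locBdd_prod (unbdd_prod hcore)

theorem not_co_prod (hcore : Core) : ¬ CountablyOrthocompact ((ℕ → ℕ) × BoxPow) := by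
  intro h
  refine not_countablyOrthocompact locBdd_prod (unbdd_prod hcore)
    (h.of_closedEmbedding (f := fun z : ((ℕ → ℕ) × BoxPow) × ℕ∞ => (z.1.1, shift (z.1.2, z.2))) ?_)
  exact ((Homeomorph.prodAssoc (ℕ → ℕ) BoxPow ℕ∞).trans
    ((Homeomorph.refl (ℕ → ℕ)).prodCongr shift)).isClosedEmbedding

/-! ### The open subspace -/

/-- The points of `□^ω(ω+1)` that extend a point of the family. -/
def OP : Set BoxPow := {y | ∃ (u : PF) (n : ℕ), FF u n ∧ ∀ d v, u d = some v → y d = (v : ℕ∞)}

theorem isOpen_OP : IsOpen OP := by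
  have : OP = ⋃ u : {u : PF // ∃ n, FF u n}, nb u.1 (fun _ => 0) := by
    ext y
    simp only [OP, nb, mem_ofPred_eq, mem_iUnion, Subtype.exists, exists_prop]
    constructor
    · rintro ⟨u, n, hu, h⟩
      exact ⟨u, ⟨n, hu⟩, h, fun d _ => by simp⟩
    · rintro ⟨u, ⟨n, hu⟩, h, _⟩
      exact ⟨u, n, hu, h⟩
  rw [this]
  exact isOpen_iUnion fun u => isOpen_nb _ _

/-- The family in the open subspace. -/
noncomputable def FS (q : Idx) : OP := ⟨pt q.1.1, q.1.1, q.1.2, q.2, fun d v h => by unfold pt; rw [h, en_some]⟩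

theorem locBdd_sub : LocBdd FS LV := by
  rintro ⟨y', hy'⟩
  obtain ⟨v, rfl⟩ := pt_surj y'
  obtain ⟨u, m, hu, huv⟩ := hy'
  have huv' : ∀ d w, u d = some w → v d = some w := fun d w h => en_inj (huv d w h)
  refine ⟨Subtype.val ⁻¹' nb v (fun _ => 0), (isOpen_nb _ _).preimage continuous_subtype_val, ?_, lev u m, ?_⟩
  · show pt v ∈ nb v (fun _ => 0)
    rw [mem_nb_pt]
    exact ⟨fun d v h => h, fun _ _ _ _ => Nat.zero_le _⟩
  · rintro ⟨⟨y, n⟩, hy⟩ h
    have h1 : pt y ∈ nb v (fun _ => 0) := h
    have h2 : Ext u y := fun d w hd => (mem_nb_pt.1 h1).1 d w (huv' d w hd)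
    exact (closed_sub hu hy h2).le

theorem unbdd_sub (hcore : Core) : Unbdd FS LV := by
  intro O hO
  have hex : ∀ u : PF, ∃ g : ℕ → ℕ, ∀ (n : ℕ) (hu : FF u n) (w : PF) (hw : pt w ∈ OP),
      Near u g w → (⟨pt w, hw⟩ : OP) ∈ O ⟨(u, n), hu⟩ := by
    intro u
    by_cases hu : ∃ n, FF u n
    · obtain ⟨n, hu⟩ := hu
      obtain ⟨O', hO', hOO'⟩ := isOpen_induced_iff.1 (hO ⟨(u, n), hu⟩).1
      have h1 : pt u ∈ O' := by
        have h2 := (hO ⟨(u, n), hu⟩).2
        rw [← hOO'] at h2
        exact h2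
      obtain ⟨g, hg⟩ := exists_nb hO' h1
      refine ⟨g, fun m hm w hw hn => ?_⟩
      obtain rfl := hu.unique hm
      rw [← hOO']
      exact hg (mem_nb_pt.2 hn)
    · exact ⟨fun _ => 0, fun n h => absurd ⟨n, h⟩ hu⟩
  choose g hg using hex
  obtain ⟨u, n, x, w, h⟩ := hcore (fun _ => 0) g
  have hw : pt w ∈ OP := ⟨u 0, n 0, (h 0).1, fun d v hd => by
    unfold pt
    rw [(h 0).2.2.1.1 d v hd, en_some]⟩
  exact ⟨⟨pt w, hw⟩, fun L => ⟨⟨(u L, n L), (h L).1⟩, (h L).2.2.2, hg (u L) (n L) (h L).1 w hw (h L).2.2.1⟩⟩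

/-- The open subspace for countable orthocompactness. -/
def OP' : Set BoxPow := {y | (shift.symm y).1 ∈ OP}

theorem isOpen_OP' : IsOpen OP' :=
  isOpen_OP.preimage (continuous_fst.comp shift.symm.continuous)

/-- The product of the open subspace with `ω+1`. -/
noncomputable def shiftOP : OP × ℕ∞ ≃ₜ OP' where
  toFun z := ⟨shift (z.1.1, z.2), by
    show (shift.symm (shift (z.1.1, z.2))).1 ∈ OP
    rw [Homeomorph.symm_apply_apply]
    exact z.1.2⟩
  invFun y := (⟨(shift.symm y.1).1, y.2⟩, (shift.symm y.1).2)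
  left_inv z := by
    apply Prod.ext
    · apply Subtype.ext
      show (shift.symm (shift (z.1.1, z.2))).1 = z.1.1
      rw [Homeomorph.symm_apply_apply]
    · show (shift.symm (shift (z.1.1, z.2))).2 = z.2
      rw [Homeomorph.symm_apply_apply]
  right_inv y := by
    apply Subtype.ext
    show shift ((shift.symm y.1).1, (shift.symm y.1).2) = y.1
    rw [Prod.mk.eta, Homeomorph.apply_symm_apply]
  continuous_toFun := by
    refine Continuous.subtype_mk ?_ _
    exact shift.continuous.comp ((continuous_subtype_val.comp continuous_fst).prodMk continuous_snd)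
  continuous_invFun := by
    refine Continuous.prodMk (Continuous.subtype_mk ?_ _) ?_
    · exact continuous_fst.comp (shift.symm.continuous.comp continuous_subtype_val)
    · exact continuous_snd.comp (shift.symm.continuous.comp continuous_subtype_val)

theorem not_co_sub (hcore : Core) : ¬ CountablyOrthocompact OP' := fun h =>
  not_countablyOrthocompact locBdd_sub (unbdd_sub hcore) (h.of_closedEmbedding shiftOP.isClosedEmbedding)

theorem isClosedEmbedding_top {X : Type a} [TopologicalSpace X] :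
    IsClosedEmbedding fun x : X => (x, (⊤ : ℕ∞)) := by
  refine IsClosedEmbedding.of_continuous_injective_isClosedMap (by fun_prop) (fun x y h => congrArg Prod.fst h) ?_
  intro C hC
  have : (fun x : X => (x, (⊤ : ℕ∞))) '' C = C ×ˢ {⊤} := by
    ext z
    constructor
    · rintro ⟨x, hx, rfl⟩
      exact ⟨hx, rfl⟩
    · rintro ⟨h1, h2⟩
      exact ⟨z.1, h1, Prod.ext rfl h2.symm⟩
  rw [this]
  exact hC.prod isClosed_singleton

theorem not_cm_sub (hcore : Core) : ¬ CountablyMetacompact OP' := fun h =>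
  not_countablyMetacompact locBdd_sub (unbdd_sub hcore)
    (h.of_closedEmbedding (shiftOP.isClosedEmbedding.comp isClosedEmbedding_top))

theorem not_sp_sub (hcore : Core) : ¬ Subparacompact OP' := fun h =>
  not_subparacompact locBdd_sub (unbdd_sub hcore)
    (h.of_closedEmbedding (shiftOP.isClosedEmbedding.comp isClosedEmbedding_top))

/-- Some open subspace of `□^ω(ω+1)` fails to have the properties. -/
theorem exists_open (hcore : Core) : ∃ S : Set (BoxProd fun _ : ℕ => ℕ∞), IsOpen S ∧
    ¬ CountablyOrthocompact S ∧ ¬ CountablyMetacompact S ∧ ¬ Subparacompact S :=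
  ⟨OP', isOpen_OP', not_co_sub hcore, not_cm_sub hcore, not_sp_sub hcore⟩

/-- Box products of metrizable spaces with infinitely many factors that are not discrete and a
factor that contains a closed copy of the irrationals contain `ω^ω × □^ω(ω+1)` as a closed
subspace. -/
theorem embed_of_metrizable {ι : Type a} (Y : ι → Type b)
    [∀ i, TopologicalSpace (Y i)] [∀ i, TopologicalSpace.MetrizableSpace (Y i)]
    [∀ i, Nonempty (Y i)] (i₀ : ι) (h₀ : ∃ e : (ℕ → ℕ) → Y i₀, IsClosedEmbedding e)
    (hinf : {i | ¬ DiscreteTopology (Y i)}.Infinite) :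
    ∃ F : (ℕ → ℕ) × BoxPow → BoxProd Y, IsClosedEmbedding F := by
  classical
  obtain ⟨e0, he0⟩ := h₀
  have hinf' : ({i | ¬ DiscreteTopology (Y i)} \ {i₀}).Infinite :=
    hinf.sdiff (finite_singleton i₀)
  let m := hinf'.natEmbedding
  let j : ℕ → ι := fun n => match n with
    | 0 => i₀
    | n + 1 => (m n).1
  have hm : ∀ n, ¬ DiscreteTopology (Y (j (n + 1))) := fun n => (m n).2.1
  have hm0 : ∀ n, j (n + 1) ≠ i₀ := fun n => (m n).2.2
  have hj : Function.Injective j := by
    intro p q hpq
    cases p with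
    | zero =>
      cases q with
      | zero => rfl
      | succ q => exact absurd hpq.symm (hm0 q)
    | succ p =>
      cases q with
      | zero => exact absurd hpq (hm0 p)
      | succ q =>
        have : m p = m q := Subtype.ext hpq
        rw [m.injective this]
  choose e he using fun n => exists_enat_closedEmbedding (hm n)
  exact exists_closedEmbedding Y hj (e0 := e0) he0 (e := e) he (fun i => Classical.arbitrary _)
    (fun i _ => isClosed_singleton)

theorem not_of_metrizable (hcore : Core) {ι : Type a} (Y : ι → Type b)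
    [∀ i, TopologicalSpace (Y i)] [∀ i, TopologicalSpace.MetrizableSpace (Y i)]
    [∀ i, Nonempty (Y i)] (i₀ : ι) (h₀ : ∃ e : (ℕ → ℕ) → Y i₀, IsClosedEmbedding e)
    (hinf : {i | ¬ DiscreteTopology (Y i)}.Infinite) :
    ¬ CountablyOrthocompact (BoxProd Y) ∧ ¬ CountablyMetacompact (BoxProd Y) ∧
      ¬ Subparacompact (BoxProd Y) := by
  obtain ⟨F, hF⟩ := embed_of_metrizable Y i₀ h₀ hinf
  exact ⟨fun h => not_co_prod hcore (h.of_closedEmbedding hF),
    fun h => not_cm_prod hcore (h.of_closedEmbedding hF),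
    fun h => not_sp_prod hcore (h.of_closedEmbedding hF)⟩

end Pool.Agent.Helper37.BX
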